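import Pool.Agent.Lib.TR5.Core

/-! Restrictions of polynomial size preserve the `R`-rank of tensors. -/

namespace Pool.Agent.Results.MP_15d78c_co.Polynomial

/-- `T` has `R`-rank at most one: `T x = ∏_{I ∈ P} a_I (x(I))` for some partition `P ∈ R`. -/
def RankLeOne {d : ℕ} (R : Set (Finpartition (Finset.univ : Finset (Fin d)))) {K : Type} [Field K]
    {Q : Fin d → Type} (T : (∀ α, Q α) → K) : Prop :=
  ∃ P ∈ R, ∃ a : ∀ I : Finset (Fin d), (∀ β : {γ // γ ∈ I}, Q β.1) → K,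
    ∀ x, T x = ∏ I ∈ P.parts, a I (fun β => x β.1)

/-- The `R`-rank: the least `k` such that `T` is a sum of `k` tensors of `R`-rank at most one
(`⊤` if there is no such `k`). -/
noncomputable def rank {d : ℕ} (R : Set (Finpartition (Finset.univ : Finset (Fin d)))) {K : Type}
    [Field K] {Q : Fin d → Type} (T : (∀ α, Q α) → K) : ℕ∞ :=
  ⨅ (k : ℕ) (_ : ∃ S : Fin k → ((∀ α, Q α) → K), (∀ i, RankLeOne R (S i)) ∧ T = ∑ i, S i), (k : ℕ∞)

/-- The restriction `T(X_1 × ⋯ × X_d)`. -/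
def restrict {d : ℕ} {K : Type} {Q : Fin d → Type} (T : (∀ α, Q α) → K) (X : ∀ α, Finset (Q α)) :
    (∀ α, {q // q ∈ X α}) → K := fun y => T fun α => (y α).1

theorem le_rank {d : ℕ} (R : Set (Finpartition (Finset.univ : Finset (Fin d)))) {K : Type}
    [Field K] {Q : Fin d → Type} (T : (∀ α, Q α) → K) (l : ℕ) :
    (l : ℕ∞) ≤ rank R T ↔ ∀ k < l,
      ¬ ∃ S : Fin k → ((∀ α, Q α) → K), (∀ i, RankLeOne R (S i)) ∧ T = ∑ i, S i := by
  simp only [rank, le_iInf_iff, Nat.cast_le]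
  exact ⟨fun h k hk hS => absurd (h k hS) (by omega), fun h k hS => by
    by_contra hn; exact h k (by omega) hS⟩

theorem result (d : ℕ) : ∃ c : ℕ, ∀ (R : Set (Finpartition (Finset.univ : Finset (Fin d))))
    (l : ℕ) (K : Type) [Field K] (Q : Fin d → Type) [∀ α, Finite (Q α)] [∀ α, Nonempty (Q α)]
    (T : (∀ α, Q α) → K), (l : ℕ∞) ≤ rank R T →
      ∃ X : ∀ α, Finset (Q α), (∀ α, (X α).card ≤ (l + 1) ^ c) ∧
        (l : ℕ∞) ≤ rank R (restrict T X) := by
  classical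
  obtain ⟨e, he⟩ := Pool.Agent.Lib.TR5.core (σ := Fin d)
  refine ⟨2 * e, fun R l K _ Q _ _ T hT => ?_⟩
  rcases Nat.eq_zero_or_pos l with rfl | hl
  · exact ⟨fun _ => ∅, fun _ => by simp, by simp⟩
  have := fun α => Fintype.ofFinite (Q α)
  obtain ⟨X, h1, h2⟩ := he R l K Q T (fun _ => Finset.univ) (by
    rintro ⟨k, hk, P, a, hP, ha, h⟩
    refine (le_rank R T l).1 hT k hk ⟨fun i x => ∏ I ∈ (P i).parts, a i I x, fun i =>
      ⟨P i, hP i, fun I z => a i I fun α => if h : α ∈ I then z ⟨α, h⟩ else Classical.arbitrary _,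
        fun x => Finset.prod_congr rfl fun I _ => ha i I _ _ fun α hα => ?_⟩, ?_⟩
    · simp only [dif_pos hα]
    · funext x
      rw [h x fun _ => Finset.mem_univ _, Finset.sum_apply])
  refine ⟨X, fun α => (h1 α).trans ?_, (le_rank R _ l).2 ?_⟩
  · rw [pow_mul]
    exact Nat.pow_le_pow_left (by nlinarith) e
  rintro k hk ⟨S, hS1, hS2⟩
  choose P hP a ha using hS1
  refine h2 ⟨k, hk, P, fun i I x =>
    if h : ∀ β ∈ I, x β ∈ X β then a i I (fun β => ⟨x β.1, h β.1 β.2⟩) else 0, hP,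
    fun i I x y hxy => ?_, fun x hx => ?_⟩
  · by_cases h : ∀ β ∈ I, x β ∈ X β
    · have h' : ∀ β ∈ I, y β ∈ X β := fun β hβ => hxy β hβ ▸ h β hβ
      simp only [dif_pos h, dif_pos h']
      congr 1
      funext β
      exact Subtype.ext (hxy β.1 β.2)
    · have h' : ¬ ∀ β ∈ I, y β ∈ X β := fun h' => h fun β hβ => (hxy β hβ).symm ▸ h' β hβ
      simp only [dif_neg h, dif_neg h']
  · have h1 := congrFun hS2 (fun α => ⟨x α, hx α⟩)
    simp only [Finset.sum_apply, ha] at h1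
    refine h1.trans (Finset.sum_congr rfl fun i _ => Finset.prod_congr rfl fun I _ => ?_)
    have h : ∀ β ∈ I, x β ∈ X β := fun β _ => hx β
    simp only [dif_pos h]

end Pool.Agent.Results.MP_15d78c_co.Polynomial
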