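import Pool.Agent.Lib.TR5.SLow

/-! The order of the least size of restrictions preserving the slice rank. -/

namespace Pool.Agent.Results.MP_15d78c_co.SliceSharp

/-- `T` has slice rank at most one: `T x = a (x α) * b (x([d] \ {α}))` for some coordinate `α`. -/
def SliceOne {d : ℕ} {K : Type} [Field K] {Q : Fin d → Type} (T : (∀ α, Q α) → K) : Prop :=
  ∃ (α : Fin d) (a : Q α → K) (b : (∀ β : {β // β ≠ α}, Q β.1) → K),
    ∀ x, T x = a (x α) * b (fun β => x β.1)

/-- The slice rank: the least `k` such that `T` is a sum of `k` tensors of slice rank at most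
one. -/
noncomputable def srank {d : ℕ} {K : Type} [Field K] {Q : Fin d → Type} (T : (∀ α, Q α) → K) :
    ℕ∞ :=
  ⨅ (k : ℕ) (_ : ∃ S : Fin k → ((∀ α, Q α) → K), (∀ i, SliceOne (S i)) ∧ T = ∑ i, S i), (k : ℕ∞)

/-- The restriction `T(X_1 × ⋯ × X_d)`. -/
def restrict {d : ℕ} {K : Type} {Q : Fin d → Type} (T : (∀ α, Q α) → K) (X : ∀ α, Finset (Q α)) :
    (∀ α, {q // q ∈ X α}) → K := fun y => T fun α => (y α).1

/-- `N` is an admissible value of `F(l)` for the slice rank of order `d` tensors over `K`. -/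
def Admissible (d l : ℕ) (K : Type) [Field K] (N : ℕ) : Prop :=
  ∀ (Q : Fin d → Type) [∀ α, Finite (Q α)] [∀ α, Nonempty (Q α)] (T : (∀ α, Q α) → K),
    (l : ℕ∞) ≤ srank T →
      ∃ X : ∀ α, Finset (Q α), (∀ α, (X α).card ≤ N) ∧ (l : ℕ∞) ≤ srank (restrict T X)

open Pool.Agent.Lib.TR5 in
theorem le_srank {d : ℕ} {K : Type} [Field K] {Q Q' : Fin d → Type} (T : (∀ α, Q α) → K)
    (X : ∀ α, Finset (Q α)) (e : ∀ α, Q' α → Q α) (he : ∀ α, Function.Injective (e α))
    (hX : ∀ α q, q ∈ X α ↔ ∃ q', e α q' = q) (l : ℕ) :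
    (l : ℕ∞) ≤ srank (fun y : ∀ α, Q' α => T fun α => e α (y α)) ↔ ¬ SDec l T X := by
  classical
  simp only [srank, le_iInf_iff, Nat.cast_le]
  constructor
  · rintro h ⟨k, hk, β, a, b, hb, hT⟩
    refine absurd (h k ⟨fun i y => a i (β i) (e _ (y (β i))) * b i fun α => e α (y α), fun i =>
      ⟨β i, fun q => a i (β i) (e _ q), Function.extend (fun (y : ∀ α, Q' α) γ => y γ.1)
        (fun y => b i fun α => e α (y α)) 0, fun y => ?_⟩, funext fun y => ?_⟩) (by omega)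
    · rw [Function.FactorsThrough.extend_apply
        (f := fun (y : ∀ α, Q' α) (γ : {γ // γ ≠ β i}) => y γ.1) fun y y' h => hb i _ _ fun α hα =>
          congrArg (e α) (congrFun h ⟨α, (Finset.mem_erase.1 hα).1⟩)]
    · rw [hT _ fun α => (hX α _).2 ⟨_, rfl⟩, Finset.sum_apply]
  · rintro h k ⟨S, hS, hT⟩
    by_contra hk
    choose β a b hS using hS
    refine h ⟨k, by omega, β, fun i => Pi.single (β i) (Function.extend (e _) (a i) 0),
      fun i x => Function.extend (fun (z : ∀ γ : {γ // γ ≠ β i}, Q' γ.1)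
        (γ : {γ // γ ≠ β i}) => e γ.1 (z γ)) (b i) (fun _ => 0) fun γ : {γ // γ ≠ β i} => x γ.1,
        fun i x y h => congrArg _ (funext fun γ =>
          h γ.1 (Finset.mem_erase.2 ⟨γ.2, Finset.mem_univ _⟩)), fun x hx => ?_⟩
    choose y hy using fun α => (hX α _).1 (hx α)
    obtain rfl : x = fun α => e α (y α) := funext fun α => (hy α).symm
    rw [congrFun hT y, Finset.sum_apply]
    refine Finset.sum_congr rfl fun i _ => ?_
    beta_reduce
    rw [hS, Pi.single_eq_same, (he _).extend_apply]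
    congr 1
    exact (Function.Injective.extend_apply
      (f := fun (z : ∀ γ : {γ // γ ≠ β i}, Q' γ.1) (γ : {γ // γ ≠ β i}) => e γ.1 (z γ))
      (fun z z' h => funext fun γ => he _ (congrFun h γ)) _ _ _).symm

open Pool.Agent.Lib.TR5 in
theorem result (D : ℕ) (hD : 1 ≤ D) (l : ℕ) (K : Type) [Field K] :
    ∃ N : ℕ, IsLeast {N | Admissible (D + 1) l K N} N ∧
      ((l + D - 1) / D).choose D ≤ N ∧ N ≤ l ^ D := by
  classical
  have h1 : ∀ {Q : Fin (D + 1) → Type} [∀ α, Fintype (Q α)] (T : (∀ α, Q α) → K),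
      (l : ℕ∞) ≤ srank T ↔ ¬ SDec l T fun _ => Finset.univ := fun T =>
    le_srank T _ (fun _ q => q) (fun _ _ _ h => h) (by simp) l
  have h2 : ∀ {Q : Fin (D + 1) → Type} (T : (∀ α, Q α) → K) (X : ∀ α, Finset (Q α)),
      (l : ℕ∞) ≤ srank (restrict T X) ↔ ¬ SDec l T X := fun T X =>
    le_srank T X (fun _ => Subtype.val) (fun _ => Subtype.val_injective) (by simp) l
  have h3 : Admissible (D + 1) l K (l ^ D) := fun Q _ _ T hT => by
    have := fun α => Fintype.ofFinite (Q α)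
    obtain ⟨Y, h4, h5⟩ := s_upper l K Q T _ ((h1 T).1 hT)
    exact ⟨Y, by simpa using h4, (h2 T Y).2 h5⟩
  have h4 := Nat.sInf_mem (s := {N | Admissible (D + 1) l K N}) ⟨_, h3⟩
  refine ⟨_, ⟨h4, fun _ => Nat.sInf_le⟩, ?_, Nat.sInf_le h3⟩
  rcases lt_or_ge ((l + D - 1) / D) D with h | h
  · rw [Nat.choose_eq_zero_of_lt h]
    exact Nat.zero_le _
  obtain ⟨Q, _, _, T, h5, h6⟩ := s_lower hD l h K
  obtain ⟨X, h7, h8⟩ := h4 (fun _ => Q) T ((h1 T).2 h5)
  exact (h6 X ((h2 T X).1 h8)).trans (h7 0)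

end Pool.Agent.Results.MP_15d78c_co.SliceSharp
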